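import Pool.Agent.Q218.ZO.Couple
import Pool.Agent.H984R4.HN.Perc
import Pool.Agent.Q220.Stk.Zero

/-!
The zero-one law for the exploration path of the half-plane.
-/

set_option autoImplicit false

namespace Pool.Agent.Q218.ZO

open H984H H974 Finset H342P H984P MeasureTheory Filter Topology
open Pool.Agent.Q220.DP
open scoped ENNReal

theorem tl (b : ℕ) : Tendsto (fun n : ℕ => b + n) atTop atTop :=
  tendsto_atTop_mono (fun n => Nat.le_add_left n b) tendsto_id

theorem S_mono {ω : Conf} {r r' : ℤ} (h : r ≤ r') : Ret_S ω r ⊆ Ret_S ω r' := by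
  rintro v ⟨u, hu, hu0, hr⟩
  exact ⟨u, hu.trans h, hu0, hr⟩

/-- The cluster of a half-box is not large. -/
theorem S_prob : ∃ a A : ℝ, 0 < a ∧ 0 < A ∧ ∀ r R : ℕ, 1 ≤ r → r < R →
    perc.real {ω | ¬ ∀ v ∈ Ret_S ω r, sd v (0, 0) < R} ≤ A * ((r : ℝ) / R) ^ a := by
  obtain ⟨κ, hκ, hW⟩ := H12S.win_half
  obtain ⟨C, c, hC, hc, harm⟩ := H12S.win_arm_of
    (fun h _ h1 h2 => fun c1 c2 S => H12S.win_blk h h1 h2 c1 c2 S) κ hκ
  refine ⟨c, C, hc, hC, ?_⟩
  intro r R hr hlt
  have h1 : perc.real {ω | ¬ ∀ v ∈ Ret_S ω r, sd v (0, 0) < R} ≤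
      perc.real {ω | H12S.Crs 0 0 r R (↑(cut ω R) : Set Edg)} := by
    apply measureReal_mono
    · intro ω hω
      simp only [Set.mem_ofPred_eq, not_forall, not_lt] at hω
      obtain ⟨v, hv, hv2⟩ := hω
      exact Ret_arm ω hlt hv hv2
    · exact measure_ne_top _ _
  refine h1.trans ?_
  rw [perc_cut (R : ℤ) (fun F => H12S.Crs 0 0 r R (↑F : Set Edg))]
  exact (harm (1/2) R (hW R) r R hr hlt.le le_rfl 0 0 (bx R).edges).1

/-- Almost surely the clusters of all half-boxes are bounded. -/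
theorem ae_bounded : ∀ᵐ ω ∂perc, ∀ r : ℕ, ∃ R : ℕ, r < R ∧ ∀ v ∈ Ret_S ω r, sd v (0, 0) < (R : ℤ) := by
  obtain ⟨a, A, ha, hA, h⟩ := S_prob
  have key : ∀ r : ℕ, ∀ᵐ ω ∂perc, ∃ R : ℕ, r + 1 < R ∧
      ∀ v ∈ Ret_S ω ((r + 1 : ℕ) : ℤ), sd v (0, 0) < (R : ℤ) := by
    intro r
    rw [ae_iff]
    have hle : ∀ j : ℕ, perc {ω | ¬ ∃ R : ℕ, r + 1 < R ∧
        ∀ v ∈ Ret_S ω ((r + 1 : ℕ) : ℤ), sd v (0, 0) < (R : ℤ)} ≤
        ENNReal.ofReal (A * (((r + 1 : ℕ) : ℝ) / ((r + 2 + j : ℕ) : ℝ)) ^ a) := by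
      intro j
      have h2 := h (r + 1) (r + 2 + j) (by omega) (by omega)
      rw [measureReal_def] at h2
      have h3 := (ENNReal.le_ofReal_iff_toReal_le (measure_ne_top _ _) (by positivity)).2 h2
      refine (measure_mono ?_).trans h3
      intro ω hω hcon
      exact hω ⟨r + 2 + j, by omega, hcon⟩
    have hlim : Tendsto (fun j : ℕ => ENNReal.ofReal
        (A * (((r + 1 : ℕ) : ℝ) / ((r + 2 + j : ℕ) : ℝ)) ^ a)) atTop (𝓝 0) := by
      rw [← ENNReal.ofReal_zero]
      apply (ENNReal.continuous_ofReal.tendsto 0).comp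
      have h1 : Tendsto (fun j : ℕ => ((r + 1 : ℕ) : ℝ) / ((r + 2 + j : ℕ) : ℝ)) atTop (𝓝 0) := by
        apply Tendsto.div_atTop tendsto_const_nhds
        exact tendsto_natCast_atTop_atTop.comp (tl (r + 2))
      have h4 := (h1.rpow_const (p := a) (Or.inr ha.le)).const_mul A
      rw [Real.zero_rpow ha.ne', mul_zero] at h4
      exact h4
    exact le_antisymm (ge_of_tendsto' hlim hle) bot_le
  filter_upwards [ae_all_iff.2 key] with ω hω r
  obtain ⟨R, hR, hS⟩ := hω r
  exact ⟨R, by omega, fun v hv => hS v (S_mono (by push_cast; omega) hv)⟩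

/-- A finite set of edges is contained in a box. -/
theorem fin_box {D : Set Edg} (hD : D.Finite) :
    ∃ r : ℕ, ∀ e ∈ D, sd (src e) (0, 0) ≤ r ∧ sd (tgt e) (0, 0) ≤ r := by
  obtain ⟨M, hM⟩ := (hD.image (fun e : Edg => max (sd (src e) (0, 0)) (sd (tgt e) (0, 0)))).bddAbove
  refine ⟨M.toNat, fun e he => ?_⟩
  have h1 : max (sd (src e) (0, 0)) (sd (tgt e) (0, 0)) ≤ M := hM (Set.mem_image_of_mem _ he)
  have h2 : M ≤ M.toNat := Int.self_le_toNat M
  exact ⟨(le_max_left _ _).trans (h1.trans h2), (le_max_right _ _).trans (h1.trans h2)⟩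

/-- **Asymptotic coupling.** -/
theorem coupling : ∀ᵐ ω ∂perc, ∀ ω' : Conf, {e | ω e ≠ ω' e}.Finite →
    ∃ a b : ℕ, ∀ n, path ω (a + n) = path ω' (b + n) := by
  filter_upwards [ae_bounded] with ω hω ω' hfin
  obtain ⟨r, hr⟩ := fin_box hfin
  obtain ⟨R, hR, hS⟩ := hω r
  have hag : AgreeOff r ω ω' := by
    intro e he
    by_contra hne
    exact he (hr e hne)
  obtain ⟨a, b, h, -⟩ := coincide (by positivity) (by exact_mod_cast hR) hS hag
  exact ⟨a, b, h⟩

theorem gam_measurable : Measurable (fun ω : Conf => gam ω) := by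
  rw [measurable_pi_iff]
  intro n
  refine Perc_meas_dep n (fun p => place (p n)) ?_
  intro p p' h
  rw [h n le_rfl]

/-- set the edges of `F` closed -/
noncomputable def clo (F : Finset Edg) (ω : Conf) : Conf := by
  classical
  exact fun e => if e ∈ F then false else ω e

theorem clo_meas (F : Finset Edg) : Measurable (clo F) := by
  classical
  rw [measurable_pi_iff]
  intro e
  unfold clo
  by_cases he : e ∈ F
  · simp only [he, if_true]; exact measurable_const
  · simp only [he, if_false]; exact measurable_pi_apply e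

/-- **Zero-one law for events**: an event which almost surely does not depend on finitely many
edges. -/
theorem zo_event {G : Set Conf} (mG : MeasurableSet G)
    (h : ∀ᵐ ω ∂perc, ∀ ω' : Conf, {e | ω e ≠ ω' e}.Finite → (ω ∈ G ↔ ω' ∈ G)) :
    perc G = 0 ∨ perc G = 1 := by
  classical
  by_cases h0 : perc G = 0
  · exact Or.inl h0
  right
  refine Pool.Agent.Q220.Stk.zero_one (fun _ : Edg => (PMF.uniformOfFintype Bool).toMeasure)
    mG (fun F => ⟨clo F ⁻¹' G, clo_meas F mG, ?_, ?_⟩) h0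
  · intro ω ω' hw hω
    have : clo F ω = clo F ω' := by
      funext e
      unfold clo
      by_cases he : e ∈ F
      · simp [he]
      · simp only [he, if_false]
        exact hw e (by simpa using he)
    show clo F ω' ∈ G
    rw [← this]
    exact hω
  · filter_upwards [h] with ω hω
    apply propext
    refine hω (clo F ω) (Set.Finite.subset F.finite_toSet ?_)
    intro e he
    by_contra hcon
    apply he
    unfold clo
    rw [Finset.mem_coe] at hcon
    simp [hcon]

theorem shift_iff {B : Set (ℕ → ℂ)} (hB : ∀ x : ℕ → ℂ, x ∈ B ↔ (fun n => x (n + 1)) ∈ B) (a : ℕ)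
    (x : ℕ → ℂ) : x ∈ B ↔ (fun n => x (a + n)) ∈ B := by
  induction a with
  | zero => simp
  | succ a ih =>
    rw [ih, hB (fun n => x (a + n))]
    have : (fun n => (fun n => x (a + n)) (n + 1)) = fun n => x (a + 1 + n) := by
      funext n
      show x (a + (n + 1)) = _
      congr 1
      omega
    rw [this]

/-- **Zero-one law for the path.** -/
theorem zo_path {B : Set (ℕ → ℂ)} (mB : MeasurableSet B)
    (hB : ∀ x : ℕ → ℂ, x ∈ B ↔ (fun n => x (n + 1)) ∈ B) :
    perc {ω | gam ω ∈ B} = 0 ∨ perc {ω | gam ω ∈ B} = 1 := by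
  apply zo_event (gam_measurable mB)
  filter_upwards [coupling] with ω hω ω' hfin
  obtain ⟨a, b, hab⟩ := hω ω' hfin
  show gam ω ∈ B ↔ gam ω' ∈ B
  rw [shift_iff hB a, shift_iff hB b (gam ω')]
  have : (fun n => gam ω (a + n)) = fun n => gam ω' (b + n) := by
    funext n
    unfold gam
    rw [hab n]
  rw [this]

end Pool.Agent.Q218.ZO
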