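import Pool.Agent.Q218.ZO.Law
import Pool.Agent.H984R4.HN.Disp

/-!
Non-random constants in laws of the iterated logarithm.
-/

set_option autoImplicit false

namespace Pool.Agent.Q218.ZO

open H984H H974 Finset H342P H984P MeasureTheory Filter Topology

/-- `limsup U / φ ≤ q`. -/
def LS (φ U : ℕ → ℝ) (q : ℝ) : Prop :=
  ∀ k : ℕ, ∀ᶠ n in atTop, U n ≤ (q + 1 / ((k : ℝ) + 1)) * φ n

theorem ratio_k {φ : ℕ → ℝ} (hφ : ∀ᶠ n in atTop, 0 < φ n)
    (hr : Tendsto (fun n => φ (n + 1) / φ n) atTop (𝓝 1)) (k : ℕ) :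
    Tendsto (fun n => φ (k + n) / φ n) atTop (𝓝 1) := by
  induction k with
  | zero =>
    refine (tendsto_const_nhds (x := (1 : ℝ))).congr' ?_
    filter_upwards [hφ] with n hn
    rw [zero_add, div_self hn.ne']
  | succ k ih =>
    have h1 : Tendsto (fun n => φ (k + n + 1) / φ (k + n)) atTop (𝓝 1) :=
      hr.comp (tl k)
    have h2 := h1.mul ih
    rw [mul_one] at h2
    refine h2.congr' ?_
    have h3 : ∀ᶠ n in atTop, 0 < φ (k + n) :=
      (tl k).eventually hφ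
    filter_upwards [hφ, h3] with n hn hn3
    have e : k + 1 + n = k + n + 1 := by omega
    rw [e]
    field_simp

theorem ratio_ab {φ : ℕ → ℝ} (hφ : ∀ᶠ n in atTop, 0 < φ n)
    (hr : Tendsto (fun n => φ (n + 1) / φ n) atTop (𝓝 1)) (a b : ℕ) :
    Tendsto (fun n => φ (a + n) / φ (b + n)) atTop (𝓝 1) := by
  have h := (ratio_k hφ hr a).div (ratio_k hφ hr b) one_ne_zero
  rw [div_one] at h
  refine h.congr' ?_
  have h3 : ∀ᶠ n in atTop, 0 < φ (b + n) :=
    (tl b).eventually hφ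
  filter_upwards [hφ, h3] with n hn hn3
  rw [Pi.div_apply]
  field_simp

theorem ev_shift {P : ℕ → Prop} (b : ℕ) (h : ∀ᶠ n in atTop, P (b + n)) : ∀ᶠ n in atTop, P n := by
  rw [eventually_atTop] at h ⊢
  obtain ⟨N, hN⟩ := h
  refine ⟨b + N, fun n hn => ?_⟩
  have := hN (n - b) (by omega)
  rwa [show b + (n - b) = n by omega] at this

theorem LS_shift {φ : ℕ → ℝ} (hφ : ∀ᶠ n in atTop, 0 < φ n)
    (hr : Tendsto (fun n => φ (n + 1) / φ n) atTop (𝓝 1)) {U U' : ℕ → ℝ} {a b : ℕ}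
    (h : ∀ᶠ n in atTop, U (a + n) = U' (b + n)) {q : ℝ} (hU : LS φ U q) : LS φ U' q := by
  intro k
  apply ev_shift b
  obtain ⟨l, hl⟩ : ∃ l : ℕ, 1 / ((l : ℝ) + 1) < 1 / ((k : ℝ) + 1) := by
    refine ⟨k + 1, ?_⟩
    apply one_div_lt_one_div_of_lt (by positivity)
    push_cast
    linarith
  have h1 := (tl a).eventually (hU l)
  have h2 : Tendsto (fun n => (q + 1 / ((l : ℝ) + 1)) * (φ (a + n) / φ (b + n))) atTop
      (𝓝 ((q + 1 / ((l : ℝ) + 1)) * 1)) := (ratio_ab hφ hr a b).const_mul _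
  have h3 : ∀ᶠ n in atTop, (q + 1 / ((l : ℝ) + 1)) * (φ (a + n) / φ (b + n)) <
      q + 1 / ((k : ℝ) + 1) := by
    apply h2.eventually_lt_const
    linarith
  have h4 : ∀ᶠ n in atTop, 0 < φ (b + n) :=
    (tl b).eventually hφ
  filter_upwards [h, h1, h3, h4] with n hn g1 g3 g4
  rw [← hn]
  refine le_trans g1 ?_
  have h5 : (q + 1 / ((l : ℝ) + 1)) * φ (a + n) =
      (q + 1 / ((l : ℝ) + 1)) * (φ (a + n) / φ (b + n)) * φ (b + n) := by
    field_simp
  show (q + 1 / ((l : ℝ) + 1)) * φ (a + n) ≤ _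
  rw [h5]
  exact mul_le_mul_of_nonneg_right g3.le g4.le

theorem LS_mono {φ : ℕ → ℝ} (hφ : ∀ᶠ n in atTop, 0 < φ n) {U : ℕ → ℝ} {q q' : ℝ} (hq : q ≤ q')
    (h : LS φ U q) : LS φ U q' := by
  intro k
  filter_upwards [h k, hφ] with n h1 h2
  refine h1.trans ?_
  apply mul_le_mul_of_nonneg_right _ h2.le
  linarith

theorem LS_meas {φ : ℕ → ℝ} {U : Conf → ℕ → ℝ} (hU : ∀ n, Measurable fun ω => U ω n) (q : ℝ) :
    MeasurableSet {ω | LS φ (U ω) q} := by
  unfold LS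
  simp only [eventually_atTop, Set.ofPred_forall]
  refine MeasurableSet.iInter fun k => ?_
  simp only [Set.ofPred_exists, Set.ofPred_forall]
  refine MeasurableSet.iUnion fun N => MeasurableSet.iInter fun n => MeasurableSet.iInter fun _ => ?_
  exact measurableSet_le (hU n) measurable_const

/-- The constant in the limsup is not random. -/
theorem const_of {φ : ℕ → ℝ} (hφ : ∀ᶠ n in atTop, 0 < φ n) {U : Conf → ℕ → ℝ}
    (h01 : ∀ q : ℝ, perc {ω | LS φ (U ω) q} = 0 ∨ perc {ω | LS φ (U ω) q} = 1)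
    (hm : ∀ n, Measurable fun ω => U ω n) {c C : ℝ}
    (hC : ∀ᵐ ω ∂perc, ∀ᶠ n in atTop, U ω n ≤ C * φ n)
    (hc : ∀ᵐ ω ∂perc, ∃ᶠ n in atTop, c * φ n ≤ U ω n) :
    ∃ K : ℝ, c ≤ K ∧ K ≤ C ∧ ∀ᵐ ω ∂perc, ∀ ε : ℝ, 0 < ε →
      (∀ᶠ n in atTop, U ω n ≤ (K + ε) * φ n) ∧ ∃ᶠ n in atTop, (K - ε) * φ n ≤ U ω n := by
  have h1 : perc {ω | LS φ (U ω) C} = 1 := by
    rw [← prob_compl_eq_zero_iff (LS_meas hm C)]
    have : ∀ᵐ ω ∂perc, LS φ (U ω) C := by
      filter_upwards [hC] with ω hω k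
      filter_upwards [hω, hφ] with n g1 g2
      refine g1.trans ?_
      apply mul_le_mul_of_nonneg_right _ g2.le
      have : 0 < 1 / ((k : ℝ) + 1) := by positivity
      linarith
    exact this
  have h0 : ∀ q, q < c → perc {ω | LS φ (U ω) q} = 0 := by
    intro q hq
    have : ∀ᵐ ω ∂perc, ¬ LS φ (U ω) q := by
      filter_upwards [hc] with ω hω hLS
      obtain ⟨k, hk⟩ := exists_nat_one_div_lt (sub_pos.2 hq)
      apply hω
      filter_upwards [hLS k, hφ] with n g1 g2 g3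
      have : (q + 1 / ((k : ℝ) + 1)) * φ n < c * φ n :=
        mul_lt_mul_of_pos_right (by linarith) g2
      linarith
    rw [ae_iff] at this
    simpa using this
  set S : Set ℝ := {q | perc {ω | LS φ (U ω) q} = 1} with hS
  have hne : S.Nonempty := ⟨C, h1⟩
  have hbd : BddBelow S := by
    refine ⟨c, fun q hq => ?_⟩
    by_contra hcon
    push Not at hcon
    have h2 : perc {ω | LS φ (U ω) q} = 1 := hq
    rw [h0 q hcon] at h2
    exact zero_ne_one h2
  refine ⟨sInf S, le_csInf hne fun q hq => ?_, csInf_le hbd h1, ?_⟩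
  · by_contra hcon
    push Not at hcon
    have h2 : perc {ω | LS φ (U ω) q} = 1 := hq
    rw [h0 q hcon] at h2
    exact zero_ne_one h2
  have hup : ∀ j : ℕ, ∀ᵐ ω ∂perc, LS φ (U ω) (sInf S + 1 / ((j : ℝ) + 1)) := by
    intro j
    have hj : sInf S < sInf S + 1 / ((j : ℝ) + 1) := by
      have : 0 < 1 / ((j : ℝ) + 1) := by positivity
      linarith
    obtain ⟨q, hq, hq2⟩ := exists_lt_of_csInf_lt hne hj
    have h2 : perc {ω | LS φ (U ω) q} = 1 := hq
    rw [← prob_compl_eq_zero_iff (LS_meas hm q)] at h2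
    have h3 : ∀ᵐ ω ∂perc, LS φ (U ω) q := h2
    filter_upwards [h3] with ω hω
    exact LS_mono hφ hq2.le hω
  have hlow : ∀ j : ℕ, ∀ᵐ ω ∂perc, ¬ LS φ (U ω) (sInf S - 1 / ((j : ℝ) + 1)) := by
    intro j
    have h2 : perc {ω | LS φ (U ω) (sInf S - 1 / ((j : ℝ) + 1))} = 0 := by
      rcases h01 (sInf S - 1 / ((j : ℝ) + 1)) with h | h
      · exact h
      · exfalso
        have h3 := csInf_le hbd (show sInf S - 1 / ((j : ℝ) + 1) ∈ S from h)
        have : 0 < 1 / ((j : ℝ) + 1) := by positivity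
        linarith
    rw [ae_iff]
    simpa using h2
  filter_upwards [ae_all_iff.2 hup, ae_all_iff.2 hlow] with ω g1 g2 ε hε
  constructor
  · obtain ⟨j, hj⟩ := exists_nat_one_div_lt (show 0 < ε / 2 by positivity)
    filter_upwards [g1 j j, hφ] with n h3 h4
    refine h3.trans ?_
    apply mul_le_mul_of_nonneg_right _ h4.le
    linarith
  · obtain ⟨j, hj⟩ := exists_nat_one_div_lt hε
    have h3 := g2 j
    unfold LS at h3
    push Not at h3
    obtain ⟨k, hk⟩ := h3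
    refine (hk.and_eventually hφ).mono fun n hn => ?_
    refine le_trans ?_ hn.1.le
    apply mul_le_mul_of_nonneg_right _ hn.2.le
    have : 0 < 1 / ((k : ℝ) + 1) := by positivity
    linarith

/-- The distances from the origin of the points of the path are unbounded. -/
theorem unbdd (ω : Conf) (a : ℕ) (M : ℝ) : ∃ n, M ≤ ‖gam ω (a + n)‖ := by
  -- the first `a` points are bounded
  obtain ⟨M', hM'⟩ : ∃ M' : ℝ, ∀ k < a, ‖gam ω k‖ ≤ M' := by
    refine ⟨reach a ω, fun k hk => ?_⟩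
    exact Finset.le_sup' (fun k => ‖gam ω k‖) (Finset.mem_range.2 (by omega))
  obtain ⟨k, hk⟩ := leaves ω (⌈max M M'⌉ + 2)
  have h1 := le_norm_place (path ω k)
  have h2 : max M M' + 2 ≤ ((sd (path ω k).1 (0, 0) : ℤ) : ℝ) := by
    have h3 : ((⌈max M M'⌉ + 2 : ℤ) : ℝ) ≤ ((sd (path ω k).1 (0, 0) : ℤ) : ℝ) := by
      exact_mod_cast hk
    have h4 := Int.le_ceil (max M M')
    push_cast at h3
    linarith
  have h3 : max M M' < ‖gam ω k‖ := by
    have : ‖gam ω k‖ = ‖place (path ω k)‖ := rfl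
    rw [this]
    linarith
  have hka : a ≤ k := by
    by_contra hcon
    push Not at hcon
    have := hM' k hcon
    have := le_max_right M M'
    linarith
  refine ⟨k - a, ?_⟩
  rw [show a + (k - a) = k by omega]
  exact (le_max_left _ _).trans h3.le

theorem reach_mono (ω : Conf) {m n : ℕ} (h : m ≤ n) : reach m ω ≤ reach n ω := by
  unfold reach
  apply Finset.sup'_mono
  intro k hk
  rw [Finset.mem_range] at hk ⊢
  omega

theorem le_reach (ω : Conf) {k n : ℕ} (h : k ≤ n) : ‖gam ω k‖ ≤ reach n ω :=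
  (norm_gam_le k ω).trans (reach_mono ω h)

theorem reach_le_of {ω ω' : Conf} {a b : ℕ} (h : ∀ n, gam ω (a + n) = gam ω' (b + n)) :
    ∀ᶠ n in atTop, reach (a + n) ω ≤ reach (b + n) ω' := by
  obtain ⟨N, hN⟩ := unbdd ω a (reach a ω)
  filter_upwards [eventually_ge_atTop N] with n hn
  obtain ⟨k, hk, hk2⟩ := Disp_exists_reach ω (a + n)
  rw [← hk2]
  rcases le_or_gt a k with hak | hak
  · obtain ⟨j, rfl⟩ := Nat.exists_eq_add_of_le hak
    rw [h j]
    exact le_reach ω' (by omega)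
  · refine (le_reach ω hak.le).trans (hN.trans ?_)
    rw [h N]
    exact le_reach ω' (by omega)

theorem reach_eq_of {ω ω' : Conf} {a b : ℕ} (h : ∀ n, gam ω (a + n) = gam ω' (b + n)) :
    ∀ᶠ n in atTop, reach (a + n) ω = reach (b + n) ω' := by
  filter_upwards [reach_le_of h, reach_le_of (fun n => (h n).symm)] with n h1 h2
  exact le_antisymm h1 h2

theorem gam_coupling : ∀ᵐ ω ∂perc, ∀ ω' : Conf, {e | ω e ≠ ω' e}.Finite →
    ∃ a b : ℕ, ∀ n, gam ω (a + n) = gam ω' (b + n) := by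
  filter_upwards [coupling] with ω hω ω' hfin
  obtain ⟨a, b, h⟩ := hω ω' hfin
  refine ⟨a, b, fun n => ?_⟩
  unfold gam
  rw [h n]

/-- A functional of the path which is asymptotically invariant. -/
theorem zo_LS {φ : ℕ → ℝ} (hφ : ∀ᶠ n in atTop, 0 < φ n)
    (hr : Tendsto (fun n => φ (n + 1) / φ n) atTop (𝓝 1)) {U : Conf → ℕ → ℝ}
    (hm : ∀ n, Measurable fun ω => U ω n)
    (hU : ∀ ω ω' : Conf, ∀ a b : ℕ, (∀ n, gam ω (a + n) = gam ω' (b + n)) →
      ∀ᶠ n in atTop, U ω (a + n) = U ω' (b + n)) (q : ℝ) :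
    perc {ω | LS φ (U ω) q} = 0 ∨ perc {ω | LS φ (U ω) q} = 1 := by
  apply zo_event (LS_meas hm q)
  filter_upwards [gam_coupling] with ω hω ω' hfin
  obtain ⟨a, b, h⟩ := hω ω' hfin
  have h1 := hU ω ω' a b h
  constructor
  · intro h2
    exact LS_shift hφ hr h1 h2
  · intro h2
    exact LS_shift hφ hr (h1.mono fun n hn => hn.symm) h2

end Pool.Agent.Q218.ZO
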