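import Pool.Agent.H984R4.HN.Ret
import Pool.Agent.H984R4.HN.Couple

/-!
The exploration paths of two configurations of the half-plane which differ at finitely many edges
coincide, up to a shift of time, from some time on.
-/

set_option autoImplicit false

namespace Pool.Agent.Q218.ZO

open H984H H974 Finset H342P H984P MeasureTheory Filter Topology

/-- The configurations agree off the edges with both ends in the box of radius `r`. -/
def AgreeOff (r : ℤ) (ω ω' : Conf) : Prop :=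
  ∀ e : Edg, ¬ (sd (src e) (0, 0) ≤ r ∧ sd (tgt e) (0, 0) ≤ r) → ω e = ω' e

theorem AgreeOff.symm {r : ℤ} {ω ω' : Conf} (h : AgreeOff r ω ω') : AgreeOff r ω' ω :=
  fun e he => (h e he).symm

theorem S_sub {r : ℤ} {ω ω' : Conf} (h : AgreeOff r ω ω') : Ret_S ω r ⊆ Ret_S ω' r := by
  rintro v ⟨u, hu, hu0, hreach⟩
  have key : ∀ w, Reach (Ret_O ω) u w → w ∈ Ret_S ω' r := by
    intro w hw
    induction hw with
    | refl => exact ⟨u, hu, hu0, Reach.refl _ _⟩
    | @tail a b hab hs ih =>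
      have hb0 : 0 ≤ b.2 := Ret_O_nonneg hu0 (hab.tail hs)
      obtain ⟨e, he, hc⟩ := hs
      by_cases hbox : sd (src e) (0, 0) ≤ r ∧ sd (tgt e) (0, 0) ≤ r
      · have hb : sd b (0, 0) ≤ r := by
          rcases hc with ⟨_, h2⟩ | ⟨h1, _⟩
          · rw [← h2]; exact hbox.2
          · rw [← h1]; exact hbox.1
        exact ⟨b, hb, hb0, Reach.refl _ _⟩
      · refine Ret_S_closed ih ⟨e, ⟨he.1, he.2.1, ?_⟩, hc⟩
        rw [← h e hbox]
        exact he.2.2
  exact key v hreach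

theorem S_eq {r : ℤ} {ω ω' : Conf} (h : AgreeOff r ω ω') : Ret_S ω r = Ret_S ω' r :=
  Set.Subset.antisymm (S_sub h) (S_sub h.symm)

theorem T_eq {r R : ℤ} {ω ω' : Conf} (h : AgreeOff r ω ω') : Ret_T ω r R = Ret_T ω' r R := by
  unfold Ret_T
  rw [S_eq h]

/-- The planar fact. -/
theorem planar {ω : Conf} {r R : ℤ} (hr : 0 ≤ r) (hrR : r < R)
    (hS : ∀ v ∈ Ret_S ω r, sd v (0, 0) < R) {x y : ℤ} (hxy : x < y) (hy0 : y < 0)
    (h1 : ((x, 0) : Vtx) ∈ Ret_S ω r)
    (h2 : ((y, 0) : Vtx) ∈ Ret_T ω r R) : False := by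
  obtain ⟨-, hxS, w, hw, hreach⟩ := h2
  obtain ⟨u0, hu0, hu0', hπ⟩ := h1
  have hbox : ∀ v : Vtx, sd v (0, 0) ≤ r → 0 ≤ v.2 → v ∈ Ret_S ω r := fun v h h' => ⟨v, h, h', Reach.refl _ _⟩
  have hx1 : y < -r := by
    by_contra hcon
    apply hxS
    apply hbox _ _ le_rfl
    rw [Ret_sd]
    simp only [abs_zero]
    apply max_le _ hr
    rw [abs_le]
    omega
  have hu0S := hbox u0 hu0 hu0'
  have hxx : ((x, 0) : Vtx) ∈ Ret_S ω r := ⟨u0, hu0, hu0', hπ⟩
  have habs : ∀ v : Vtx, sd v (0, 0) < R → (-R < v.1 ∧ v.1 < R) ∧ (-R < v.2 ∧ v.2 < R) := by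
    intro v hv
    rw [Ret_sd, max_lt_iff, abs_lt, abs_lt] at hv
    exact hv
  have hSb : ∀ v ∈ Ret_S ω r, (-R < v.1 ∧ v.1 < R) ∧ (0 ≤ v.2 ∧ v.2 < R) := fun v hv =>
    ⟨(habs v (hS v hv)).1, Ret_S_nonneg hv, (habs v (hS v hv)).2.2⟩
  obtain ⟨⟨hxb1, -⟩, -⟩ := hSb _ hxx
  simp only at hxb1
  have hu0r : (-r ≤ u0.1 ∧ u0.1 ≤ r) ∧ u0.2 ≤ r := by
    rw [Ret_sd, max_le_iff, abs_le, abs_le] at hu0
    exact ⟨hu0.1, hu0.2.2⟩
  set S' : Set Vtx := {v | v ∈ Ret_S ω r ∨ (v.2 = -1 ∧ v.1 ≤ x) ∨ (v.2 = -1 ∧ -r ≤ v.1)} with hS'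
  set T' : Set Vtx := {v | (0 ≤ v.2 ∧ v ∉ Ret_S ω r) ∨ (v.2 = -1 ∧ x < v.1 ∧ v.1 < -r) ∨ v.2 = -2} with hT'
  have hdis : Disjoint S' T' := by
    rw [Set.disjoint_left]
    rintro v (h | ⟨h, h'⟩ | ⟨h, h'⟩) (k | ⟨k, k', k''⟩ | k)
    · exact k.2 h
    · have := Ret_S_nonneg h; omega
    · have := Ret_S_nonneg h; omega
    all_goals omega
  -- the left-right path
  have p1 : Reach (Ret_E S' ∩ ↑(RE (-R) R (-2) R)) (-R, -1) (x, -1) := by
    apply Ret_row' (by omega)
    intro i hi1 hi2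
    refine ⟨⟨Or.inr (Or.inl ⟨rfl, by simp only [src_mk]; omega⟩), Or.inr (Or.inl ⟨by simp, by simp only [tgt_true]; omega⟩)⟩, ?_⟩
    rw [Finset.mem_coe, mem_RE_true]; omega
  have p2 : Reach (Ret_E S' ∩ ↑(RE (-R) R (-2) R)) (x, -1) (x, 0) := by
    apply Ret_col' (by omega)
    intro i hi1 hi2
    have : i = -1 := by omega
    subst this
    refine ⟨⟨Or.inr (Or.inl ⟨rfl, le_rfl⟩), Or.inl (by simpa using hxx)⟩, ?_⟩
    rw [Finset.mem_coe, mem_RE_false]; omega
  have hin : ∀ u v : Vtx, Reach (Ret_E (Ret_S ω r)) u v → Reach (Ret_E S' ∩ ↑(RE (-R) R (-2) R)) u v := by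
    intro u v h
    refine h.mono ?_
    rintro e ⟨he1, he2⟩
    refine ⟨⟨Or.inl he1, Or.inl he2⟩, ?_⟩
    have b1 := hSb _ he1
    have b2 := hSb _ he2
    obtain ⟨a, b, _ | _⟩ := e
    · simp only [src_mk, tgt_false] at b1 b2
      rw [Finset.mem_coe, mem_RE_false]; omega
    · simp only [src_mk, tgt_true] at b1 b2
      rw [Finset.mem_coe, mem_RE_true]; omega
  have p3 : Reach (Ret_E S' ∩ ↑(RE (-R) R (-2) R)) u0 (x, 0) := hin _ _ (Ret_S_path hu0S hπ).1
  have p4 : Reach (Ret_E S' ∩ ↑(RE (-R) R (-2) R)) (u0.1, -1) (u0.1, u0.2) := by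
    apply Ret_col' (by omega)
    intro i hi1 hi2
    have hmem : ∀ j : ℤ, -1 ≤ j → j ≤ u0.2 → ((u0.1, j) : Vtx) ∈ S' := by
      intro j hj1 hj2
      rcases eq_or_lt_of_le hj1 with h | h
      · right; right
        exact ⟨h.symm, hu0r.1.1⟩
      · left
        apply hbox _ _ (by simp only; omega)
        rw [Ret_sd]
        simp only
        apply max_le
        · rw [abs_le]; exact hu0r.1
        · rw [abs_le]; omega
    refine ⟨⟨hmem i hi1 (by omega), by rw [tgt_false]; exact hmem (i + 1) (by omega) (by omega)⟩, ?_⟩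
    rw [Finset.mem_coe, mem_RE_false]; omega
  have p5 : Reach (Ret_E S' ∩ ↑(RE (-R) R (-2) R)) (u0.1, -1) (R, -1) := by
    apply Ret_row' (by omega)
    intro i hi1 hi2
    refine ⟨⟨Or.inr (Or.inr ⟨rfl, by simp only [src_mk]; omega⟩), Or.inr (Or.inr ⟨by simp, by simp only [tgt_true]; omega⟩)⟩, ?_⟩
    rw [Finset.mem_coe, mem_RE_true]; omega
  have pLR : Reach (Ret_E S' ∩ ↑(RE (-R) R (-2) R)) (-R, -1) (R, -1) :=
    p1.trans (p2.trans (p3.symm.trans (p4.symm.trans p5)))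
  -- the bottom-top path
  have q1 : Reach (Ret_E T' ∩ ↑(RE (-R) R (-2) R)) (y, -2) (y, 0) := by
    apply Ret_col' (by omega)
    intro i hi1 hi2
    have hmem : ∀ j : ℤ, -2 ≤ j → j ≤ 0 → ((y, j) : Vtx) ∈ T' := by
      intro j hj1 hj2
      rcases (by omega : j = -2 ∨ j = -1 ∨ j = 0) with h | h | h
      · right; right; exact h
      · right; left; exact ⟨h, by simp only; omega, by simp only; omega⟩
      · left; subst h; exact ⟨le_rfl, hxS⟩
    refine ⟨⟨hmem i hi1 (by omega), by rw [tgt_false]; exact hmem (i + 1) (by omega) (by omega)⟩, ?_⟩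
    rw [Finset.mem_coe, mem_RE_false]; omega
  -- exit from the box
  have hw' : w.1 ≤ -R ∨ R ≤ w.1 ∨ w.2 ≤ -2 ∨ R ≤ w.2 := by
    have hw0 : 0 ≤ w.2 := by
      have : ∀ v, Reach {e : Edg | 0 ≤ e.2.1 ∧ src e ∉ Ret_S ω r ∧ tgt e ∉ Ret_S ω r} (y, 0) v → 0 ≤ v.2 := by
        intro v hv
        induction hv with
        | refl => exact le_rfl
        | @tail a a' _ hs ih =>
          obtain ⟨⟨x', y', b⟩, he, hc⟩ := hs
          have h0 : 0 ≤ y' := he.1
          cases b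
          · simp only [src_mk, tgt_false] at hc
            rcases hc with ⟨h1, h2⟩ | ⟨h1, h2⟩
            · rw [← h2]; simp only; omega
            · rw [← h1]; exact h0
          · simp only [src_mk, tgt_true] at hc
            rcases hc with ⟨h1, h2⟩ | ⟨h1, h2⟩
            · rw [← h2]; exact h0
            · rw [← h1]; exact h0
      exact this w hreach
    rw [Ret_sd, le_max_iff, le_abs, le_abs] at hw
    omega
  obtain ⟨z, hz1, hz2, hz3⟩ := first_exit (a := -R) (b := R) (c := -2) (d := R) (u := ((y, 0) : Vtx))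
    (by unfold inR; simp only; omega) hreach hw'
  have hzz : ∀ v, Reach ({e : Edg | 0 ≤ e.2.1 ∧ src e ∉ Ret_S ω r ∧ tgt e ∉ Ret_S ω r} ∩ ↑(RE (-R) R (-2) R))
      (y, 0) v → Reach (Ret_E T' ∩ ↑(RE (-R) R (-2) R)) (y, 0) v ∧ 0 ≤ v.2 := by
    intro v hv
    induction hv with
    | refl => exact ⟨Reach.refl _ _, le_rfl⟩
    | @tail a a' _ hs ih =>
      obtain ⟨e, ⟨he, heR⟩, hc⟩ := hs
      have he' : e ∈ Ret_E T' := by
        obtain ⟨h0, hs, ht⟩ := he
        obtain ⟨x', y', _ | _⟩ := e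
        · exact ⟨Or.inl ⟨h0, hs⟩, Or.inl ⟨by simp only [tgt_false] at h0 ⊢; omega, ht⟩⟩
        · exact ⟨Or.inl ⟨h0, hs⟩, Or.inl ⟨h0, ht⟩⟩
      refine ⟨ih.1.trans (Adj.reach ⟨e, ⟨he', heR⟩, hc⟩), ?_⟩
      have h0 : 0 ≤ e.2.1 := he.1
      obtain ⟨x', y', _ | _⟩ := e
      · simp only [src_mk, tgt_false] at hc h0
        rcases hc with ⟨h1, h2⟩ | ⟨h1, h2⟩
        · rw [← h2]; simp only; omega
        · rw [← h1]; exact h0
      · simp only [src_mk, tgt_true] at hc h0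
        rcases hc with ⟨h1, h2⟩ | ⟨h1, h2⟩
        · rw [← h2]; exact h0
        · rw [← h1]; exact h0
  obtain ⟨hz4, hz5⟩ := hzz z hz3
  obtain ⟨⟨hz6, hz7⟩, hz8, hz9⟩ := hz1
  have q3 : Reach (Ret_E T' ∩ ↑(RE (-R) R (-2) R)) (z.1, z.2) (z.1, R) := by
    rcases hz2 with h | h | h | h
    · apply Ret_col' hz9
      intro i hi1 hi2
      have hmem : ∀ j : ℤ, 0 ≤ j → ((z.1, j) : Vtx) ∈ T' := by
        intro j hj
        left
        refine ⟨hj, fun hc => ?_⟩
        have := (hSb _ hc).1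
        simp only at this
        omega
      refine ⟨⟨hmem i (by omega), by rw [tgt_false]; exact hmem (i + 1) (by omega)⟩, ?_⟩
      rw [Finset.mem_coe, mem_RE_false]; omega
    · apply Ret_col' hz9
      intro i hi1 hi2
      have hmem : ∀ j : ℤ, 0 ≤ j → ((z.1, j) : Vtx) ∈ T' := by
        intro j hj
        left
        refine ⟨hj, fun hc => ?_⟩
        have := (hSb _ hc).1
        simp only at this
        omega
      refine ⟨⟨hmem i (by omega), by rw [tgt_false]; exact hmem (i + 1) (by omega)⟩, ?_⟩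
      rw [Finset.mem_coe, mem_RE_false]; omega
    · omega
    · rw [h]; exact Reach.refl _ _
  exact Ret_no_cross hdis (by omega) (by omega) pLR rfl rfl (q1.trans (hz4.trans q3)) rfl rfl

theorem not_T_of_S {ω : Conf} {r R : ℤ} {v : Vtx} (h : v ∈ Ret_S ω r) : v ∉ Ret_T ω r R :=
  fun h' => h'.2.1 h

/-- The path leaves every bounded set. -/
theorem leaves (ω : Conf) (R : ℤ) : ∃ k, R ≤ sd (path ω k).1 (0, 0) := by
  by_contra hcon
  push Not at hcon
  have hfin : Set.Finite {σ : St | sd σ.1 (0, 0) < R} := by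
    have h1 : {σ : St | sd σ.1 (0, 0) < R} ⊆
        (((Finset.Icc (-R) R ×ˢ Finset.Icc (-R) R) ×ˢ (Finset.univ : Finset Q4) : Finset St) :
          Set St) := by
      rintro ⟨⟨x, y⟩, q⟩ h
      have h' : sd (x, y) (0, 0) < R := h
      rw [Ret_sd, max_lt_iff, abs_lt, abs_lt] at h'
      simp only [Finset.coe_product, Set.mem_prod, Finset.mem_coe, Finset.mem_Icc,
        Finset.mem_univ, and_true]
      simp only at h'
      omega
    exact Set.Finite.subset (Finset.finite_toSet _) h1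
  have hinj : Function.Injective (path ω) := by
    intro i j hij
    by_contra hne
    exact path_inj ω hne hij
  exact Set.infinite_of_injective_forall_mem hinj hcon hfin

/-- The path leaves the cluster of the half-box along an edge of the negative half-axis. -/
theorem exit {ω : Conf} {r R : ℤ} (hr : 0 ≤ r) (hrR : r < R)
    (hS : ∀ v ∈ Ret_S ω r, sd v (0, 0) < R) :
    ∃ (m : ℕ) (x : ℤ), (x < 0 ∧ path ω m = ((x, 0), .ne) ∧ ((x + 1, 0) : Vtx) ∈ Ret_S ω r ∧
      ((x, 0) : Vtx) ∈ Ret_T ω r R) ∧ ∀ k < m, sd (path ω k).1 (0, 0) < R := by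
  classical
  have hex : ∃ m, (path ω m).1 ∈ Ret_T ω r R := by
    obtain ⟨k, hk⟩ := leaves ω R
    refine ⟨k, path_nonneg ω k, fun h => ?_, _, hk, Reach.refl _ _⟩
    have := hS _ h
    omega
  have hm := Nat.find_spec hex
  have hmin := fun {k : ℕ} => Nat.find_min (m := k) hex
  set m := Nat.find hex with hmdef
  have hlt : ∀ k < m, sd (path ω k).1 (0, 0) < R := by
    intro k hk
    by_contra hcon
    push Not at hcon
    refine hmin hk ⟨path_nonneg ω k, fun h => ?_, _, hcon, Reach.refl _ _⟩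
    have := hS _ h
    omega
  have h0S : (path ω 0).1 ∈ Ret_S ω r := by
    refine ⟨(0, 0), ?_, le_rfl, Reach.refl _ _⟩
    rw [Ret_sd]; simpa using hr
  have hm0 : m ≠ 0 := by
    intro h
    rw [h] at hm
    exact not_T_of_S h0S hm
  obtain ⟨k, hk⟩ := Nat.exists_eq_succ_of_ne_zero hm0
  have hk' : k < m := by omega
  have hkT := hmin hk'
  rw [hk, Nat.succ_eq_add_one] at hm
  have hnnk := path_nonneg ω k
  have hnn := path_nonneg ω (k + 1)
  have hstep := path_succ ω k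
  have hkS : (path ω k).1 ∈ Ret_S ω r := by
    by_contra hkS
    apply hkT
    rcases Ret_step_cases (opn ω) (path ω k) with h | ⟨e, he, hc, -⟩
    · rw [hstep, h] at hm
      exact hm
    · have he0 : 0 ≤ e.2.1 := Step_opn he
      rw [← hstep] at hc
      obtain ⟨h1, h2, w, hw, hkw⟩ := hm
      refine ⟨hnnk, hkS, w, hw, Reach.trans (Adj.reach ⟨e, ⟨he0, ?_, ?_⟩, hc⟩) hkw⟩
      · rcases hc with ⟨g1, g2⟩ | ⟨g1, g2⟩
        · rw [g1]; exact hkS
        · rw [g1]; exact h2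
      · rcases hc with ⟨g1, g2⟩ | ⟨g1, g2⟩
        · rw [g2]; exact h2
        · rw [g2]; exact hkS
  have hmS : (path ω (k + 1)).1 ∉ Ret_S ω r := hm.2.1
  -- the edge is on the negative half-axis
  have hax : ∀ e ∈ opn ω, ((src e = (path ω k).1 ∧ tgt e = (path ω (k + 1)).1) ∨
      (src e = (path ω (k + 1)).1 ∧ tgt e = (path ω k).1)) →
      e.2.1 = 0 ∧ e.2.2 = true ∧ e.1 < 0 := by
    intro e he hc
    rcases he with h | h
    · exact h
    · exact absurd (Ret_S_closed hkS ⟨e, h, hc⟩) hmS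
  have hdir : ∀ x : ℤ, x < 0 → (path ω k).1 = (x, 0) → (path ω (k + 1)).1 = (x + 1, 0) → False := by
    intro x hx h1 h2
    rw [h1] at hkS
    rw [h2] at hm
    exact Ret_planar hr hrR hS hx hkS hm
  rw [hk, Nat.succ_eq_add_one] at hlt
  refine ⟨k + 1, ?_⟩
  suffices hsuf : ∃ x : ℤ, (x < 0 ∧ path ω (k + 1) = ((x, 0), .ne) ∧
      ((x + 1, 0) : Vtx) ∈ Ret_S ω r ∧ ((x, 0) : Vtx) ∈ Ret_T ω r R) by
    obtain ⟨x, hx⟩ := hsuf
    exact ⟨x, hx, hlt⟩
  rw [hstep] at hax hdir hmS hm ⊢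
  generalize hσ : path ω k = σ at hkS hax hdir hmS hm ⊢
  obtain ⟨⟨x, y⟩, q⟩ := σ
  cases q
  · -- ne : up
    simp only [step] at hax hdir hmS hm ⊢
    split_ifs at hax hdir hmS hm ⊢ with hc
    · have := hax _ hc (Or.inl ⟨by simp, by simp⟩)
      simp at this
    · exact absurd hkS hmS
  · -- nw : left
    simp only [step] at hax hdir hmS hm ⊢
    split_ifs at hax hdir hmS hm ⊢ with hc
    · obtain ⟨h1, -, h3⟩ := hax _ hc (Or.inr ⟨by simp, by simp⟩)
      simp only at h1 h3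
      subst h1
      refine ⟨x - 1, h3, rfl, ?_, hm⟩
      rw [sub_add_cancel]
      exact hkS
    · exact absurd hkS hmS
  · -- sw : down
    simp only [step] at hax hdir hmS hm ⊢
    split_ifs at hax hdir hmS hm ⊢ with hc
    · have := hax _ hc (Or.inr ⟨by simp, by simp⟩)
      simp at this
    · exact absurd hkS hmS
  · -- se : right
    simp only [step] at hax hdir hmS hm ⊢
    split_ifs at hax hdir hmS hm ⊢ with hc
    · obtain ⟨h1, -, h3⟩ := hax _ hc (Or.inl ⟨by simp, by simp⟩)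
      simp only at h1 h3
      subst h1
      exact (hdir x h3 rfl rfl).elim
    · exact absurd hkS hmS

/-- The exit edge is unique. -/
theorem exit_unique {ω : Conf} {r R : ℤ} (hr : 0 ≤ r) (hrR : r < R)
    (hS : ∀ v ∈ Ret_S ω r, sd v (0, 0) < R) {x y : ℤ} (hx : x < 0) (hy : y < 0)
    (h1 : ((x + 1, 0) : Vtx) ∈ Ret_S ω r) (h2 : ((x, 0) : Vtx) ∈ Ret_T ω r R)
    (h3 : ((y + 1, 0) : Vtx) ∈ Ret_S ω r) (h4 : ((y, 0) : Vtx) ∈ Ret_T ω r R) : x = y := by
  rcases lt_trichotomy x y with h | h | h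
  · exfalso
    rcases eq_or_lt_of_le (show x + 1 ≤ y by omega) with h5 | h5
    · rw [h5] at h1
      exact not_T_of_S h1 h4
    · exact planar hr hrR hS h5 hy h1 h4
  · exact h
  · exfalso
    rcases eq_or_lt_of_le (show y + 1 ≤ x by omega) with h5 | h5
    · rw [h5] at h3
      exact not_T_of_S h3 h2
    · exact planar hr hrR hS h5 hx h3 h2

theorem opn_iff {r : ℤ} {ω ω' : Conf} (h : AgreeOff r ω ω') {v : Vtx} (hv : r < sd v (0, 0))
    {e : Edg} (he : src e = v ∨ tgt e = v) : e ∈ opn ω ↔ e ∈ opn ω' := by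
  have h1 : ω e = ω' e := by
    apply h
    rintro ⟨h1, h2⟩
    rcases he with h3 | h3
    · rw [h3] at h1; omega
    · rw [h3] at h2; omega
  unfold opn
  simp only [Set.mem_ofPred_eq]
  rw [h1]

/-- **Coupling.** If the cluster of the half-box of radius `r` off the axis is bounded, then the
paths of all configurations with the same edges off the box coincide from some time on. -/
theorem coincide {ω ω' : Conf} {r R : ℤ} (hr : 0 ≤ r) (hrR : r < R)
    (hS : ∀ v ∈ Ret_S ω r, sd v (0, 0) < R) (h : AgreeOff r ω ω') :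
    ∃ a b : ℕ, (∀ n, path ω (a + n) = path ω' (b + n)) ∧
      (∀ k < a, sd (path ω k).1 (0, 0) < R) ∧ (∀ k < b, sd (path ω' k).1 (0, 0) < R) := by
  have hS' : ∀ v ∈ Ret_S ω' r, sd v (0, 0) < R := by
    rw [← S_eq h]; exact hS
  obtain ⟨a, x, ⟨hx, ha, hx1, hx2⟩, hx3⟩ := exit hr hrR hS
  obtain ⟨b, y, ⟨hy, hb, hy1, hy2⟩, hy3⟩ := exit hr hrR hS'
  rw [← S_eq h] at hy1
  rw [← T_eq h] at hy2
  have hxy := exit_unique hr hrR hS hx hy hx1 hx2 hy1 hy2
  subst hxy
  have key : ∀ n, path ω (a + n) = path ω' (b + n) ∧ (path ω (a + n)).1 ∈ Ret_T ω r R := by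
    intro n
    induction n with
    | zero =>
      refine ⟨by rw [add_zero, add_zero, ha, hb], ?_⟩
      rw [add_zero, ha]
      exact hx2
    | succ n ih =>
      obtain ⟨h1, h2⟩ := ih
      have h3 := Ret_step_T ω hr hrR hS h2
      refine ⟨?_, h3⟩
      rw [← add_assoc, ← add_assoc, path_succ, path_succ, ← h1]
      apply step_congr
      intro e he
      have hv : r < sd (path ω (a + n)).1 (0, 0) := by
        by_contra hcon
        push Not at hcon
        exact h2.2.1 ⟨_, hcon, path_nonneg ω _, Reach.refl _ _⟩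
      exact opn_iff h hv he
  exact ⟨a, b, fun n => (key n).1, hx3, hy3⟩

end Pool.Agent.Q218.ZO
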